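import Mathlib

/-! MP_c4d24c_al: a monoid with ACC on principal left ideals and on principal right ideals
but not on principal two-sided ideals. -/

namespace Pool.Agent.Results.MP_c4d24c_al.NotACCP

/-- principal left ideal -/
def lI {H : Type*} [Monoid H] (x : H) : Set H := {y | ∃ h, y = h * x}
/-- principal right ideal -/
def rI {H : Type*} [Monoid H] (x : H) : Set H := {y | ∃ h, y = x * h}
/-- principal two-sided ideal -/
def tI {H : Type*} [Monoid H] (x : H) : Set H := {y | ∃ h k, y = h * x * k}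

/-- ascending chains of principal left ideals are eventually constant -/
def ACCPL (H : Type*) [Monoid H] : Prop :=
  ∀ x : ℕ → H, (∀ i, lI (x i) ⊆ lI (x (i + 1))) → ∃ N, ∀ n, N ≤ n → lI (x n) = lI (x N)
/-- ascending chains of principal right ideals are eventually constant -/
def ACCPR (H : Type*) [Monoid H] : Prop :=
  ∀ x : ℕ → H, (∀ i, rI (x i) ⊆ rI (x (i + 1))) → ∃ N, ∀ n, N ≤ n → rI (x n) = rI (x N)
/-- ascending chains of principal two-sided ideals are eventually constant -/
def ACCP (H : Type*) [Monoid H] : Prop :=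
  ∀ x : ℕ → H, (∀ i, tI (x i) ⊆ tI (x (i + 1))) → ∃ N, ∀ n, N ≤ n → tI (x n) = tI (x N)

/-- middle part: triples -/
abbrev T : Type := ℕ × ℤ × ℕ

/-- left operators -/
def la (b : Bool) (t : T) : T :=
  if b then (if t.1 = 0 then (0, t.2.1 - 1, t.2.2 + 1) else (t.1 - 1, t.2.1, t.2.2))
  else (t.1 + 1, t.2.1, t.2.2)

/-- right operators -/
def ra (t : T) (b : Bool) : T :=
  if b then (if t.2.2 = 0 then (t.1 + 1, t.2.1 - 1, 0) else (t.1, t.2.1, t.2.2 - 1))
  else (t.1, t.2.1, t.2.2 + 1)

theorem la_ra (a b : Bool) (t : T) : la a (ra t b) = ra (la a t) b := by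
  obtain ⟨k, j, q⟩ := t
  cases a <;> cases b
  · rfl
  · rcases Nat.eq_zero_or_pos q with h | h
    · subst h; rfl
    · simp [la, ra, h.ne']
  · rcases Nat.eq_zero_or_pos k with h | h
    · subst h; rfl
    · simp [la, ra, h.ne']
  · rcases Nat.eq_zero_or_pos k with h | h <;> rcases Nat.eq_zero_or_pos q with h' | h'
    · subst h; subst h'; rfl
    · subst h
      obtain ⟨q, rfl⟩ : ∃ q', q = q' + 1 := ⟨q - 1, by omega⟩
      simp [la, ra]
    · subst h'
      obtain ⟨k, rfl⟩ : ∃ k', k = k' + 1 := ⟨k - 1, by omega⟩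
      simp [la, ra]
    · simp [la, ra, h.ne', h'.ne']

def lact (u : List Bool) (t : T) : T := u.foldr la t
def ract (t : T) (u : List Bool) : T := u.foldl ra t

theorem lact_append (u v : List Bool) (t : T) : lact (u ++ v) t = lact u (lact v t) :=
  List.foldr_append
theorem ract_append (u v : List Bool) (t : T) : ract t (u ++ v) = ract (ract t u) v :=
  List.foldl_append

theorem la_ract (a : Bool) (v : List Bool) (t : T) : la a (ract t v) = ract (la a t) v := by
  induction v generalizing t with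
  | nil => rfl
  | cons b v ih =>
    show la a (ract (ra t b) v) = ract (ra (la a t) b) v
    rw [ih, la_ra]

theorem lact_ract (u v : List Bool) (t : T) : lact u (ract t v) = ract (lact u t) v := by
  induction u with
  | nil => rfl
  | cons a u ih =>
    show la a (lact u (ract t v)) = ract (la a (lact u t)) v
    rw [ih, la_ract]

/-- the semigroup -/
inductive S : Type
  | ze : S
  | l (u : List Bool) : S
  | r (u : List Bool) : S
  | m (t : T) : S

open S

def mulS : S → S → S
  | l u, l v => l (u ++ v)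
  | l u, m t => m (lact u t)
  | r u, r v => r (u ++ v)
  | m t, r u => m (ract t u)
  | _, _ => ze

instance : Semigroup S where
  mul := mulS
  mul_assoc a b c := by
    show mulS (mulS a b) c = mulS a (mulS b c)
    cases a <;> cases b <;> cases c <;>
      simp [mulS, lact_append, ract_append, lact_ract, List.append_assoc]

theorem mul_def (a b : S) : a * b = mulS a b := rfl

abbrev H : Type := WithOne S

/-- left action invariants: q does not decrease and j + q is constant -/
theorem lact_inv (u : List Bool) (t : T) :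
    t.2.2 ≤ (lact u t).2.2 ∧ (lact u t).2.1 + (lact u t).2.2 = t.2.1 + t.2.2 := by
  induction u with
  | nil => exact ⟨le_refl _, rfl⟩
  | cons a u ih =>
    have key : ∀ s : T, s.2.2 ≤ (la a s).2.2 ∧ (la a s).2.1 + (la a s).2.2 = s.2.1 + s.2.2 := by
      rintro ⟨k, j, q⟩
      cases a
      · exact ⟨le_refl _, rfl⟩
      · rcases Nat.eq_zero_or_pos k with h | h
        · subst h
          simp [la]
        · simp [la, h.ne']
    have := key (lact u t)
    refine ⟨ih.1.trans this.1, this.2.trans ih.2⟩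

theorem ract_inv (u : List Bool) (t : T) :
    t.1 ≤ (ract t u).1 ∧ (ract t u).2.1 + (ract t u).1 = t.2.1 + t.1 := by
  induction u generalizing t with
  | nil => exact ⟨le_refl _, rfl⟩
  | cons a u ih =>
    have key : t.1 ≤ (ra t a).1 ∧ (ra t a).2.1 + (ra t a).1 = t.2.1 + t.1 := by
      obtain ⟨k, j, q⟩ := t
      cases a
      · exact ⟨le_refl _, rfl⟩
      · rcases Nat.eq_zero_or_pos q with h | h
        · subst h
          simp [ra]
        · simp [ra, h.ne']
    have := ih (ra t a)
    exact ⟨key.1.trans this.1, this.2.trans key.2⟩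

theorem lact_rep (n k : ℕ) (j : ℤ) (q : ℕ) :
    lact (List.replicate n false) (k, j, q) = (k + n, j, q) := by
  induction n with
  | zero => rfl
  | succ n ih =>
    show la false (lact (List.replicate n false) (k, j, q)) = _
    rw [ih]; rfl

theorem lact_rep' (k : ℕ) (j : ℤ) (q : ℕ) :
    lact (List.replicate k true) (k, j, q) = (0, j, q) := by
  induction k with
  | zero => rfl
  | succ k ih =>
    rw [List.replicate_succ', lact_append]
    have : lact [true] (k + 1, j, q) = (k, j, q) := by simp [lact, la]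
    rw [this, ih]

theorem ract_rep (n k : ℕ) (j : ℤ) (q : ℕ) :
    ract (k, j, q) (List.replicate n false) = (k, j, q + n) := by
  induction n with
  | zero => rfl
  | succ n ih =>
    rw [List.replicate_succ', ract_append, ih]
    rfl

theorem ract_rep' (k : ℕ) (j : ℤ) (q : ℕ) :
    ract (k, j, q) (List.replicate q true) = (k, j, 0) := by
  induction q with
  | zero => rfl
  | succ q ih =>
    rw [List.replicate_succ]
    show ract (ra (k, j, q + 1) true) (List.replicate q true) = _
    have : ra (k, j, q + 1) true = (k, j, q) := by simp [ra]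
    rw [this, ih]

/-- a case principle for the monoid with adjoined one -/
theorem H_cases (x : H) : x = 1 ∨ ∃ s : S, x = (s : H) := by
  rcases eq_or_ne x 1 with h | h
  · exact Or.inl h
  · obtain ⟨s, rfl⟩ := WithOne.ne_one_iff_exists.1 h
    exact Or.inr ⟨s, rfl⟩

theorem eventually {α : Type*} [LinearOrder α] [WellFoundedLT α] (f : ℕ → α)
    (hf : ∀ i, f (i + 1) ≤ f i) : ∃ N, ∀ n, N ≤ n → f n = f N := by
  have hanti : Antitone f := antitone_nat_of_succ_le hf
  obtain ⟨N, hN⟩ : ∃ N, ∀ n, f N ≤ f n := by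
    obtain ⟨_, ⟨N, rfl⟩, hmin⟩ := WellFounded.has_min (wellFounded_lt (α := α)) (Set.range f)
      ⟨f 0, 0, rfl⟩
    exact ⟨N, fun n => not_lt.1 (hmin (f n) ⟨n, rfl⟩)⟩
  exact ⟨N, fun n hn => le_antisymm (hanti hn) (hN n)⟩

/-- rank of an element of the semigroup for left ideals -/
def rkS : S → ℕ ×ₗ ℕ
  | ze => toLex (3, 0)
  | m t => toLex (2, t.2.2)
  | l u => toLex (1, u.length)
  | r u => toLex (1, u.length)

def rk (x : H) : ℕ ×ₗ ℕ := WithOne.recOneCoe (toLex (0, 0)) rkS x

theorem rk_one : rk 1 = toLex (0, 0) := rfl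
theorem rk_coe (s : S) : rk (s : H) = rkS s := rfl

theorem lex_le {a b c d : ℕ} (h : a < c ∨ a = c ∧ b ≤ d) :
    (toLex (a, b) : ℕ ×ₗ ℕ) ≤ toLex (c, d) := Prod.Lex.toLex_le_toLex.2 h

theorem rk_le (h y : H) : rk y ≤ rk (h * y) := by
  obtain rfl | ⟨y, rfl⟩ := H_cases y
  · rw [rk_one]
    obtain rfl | ⟨h, rfl⟩ := H_cases h
    · exact le_refl _
    · rw [mul_one, rk_coe]
      cases h <;> exact lex_le (Or.inl (by decide))
  obtain rfl | ⟨h, rfl⟩ := H_cases h
  · rw [one_mul]
  rw [← WithOne.coe_mul, rk_coe, rk_coe, mul_def]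
  cases h <;> cases y <;> simp only [mulS, rkS] <;> apply lex_le
  all_goals first
    | exact Or.inl (by decide)
    | exact Or.inr ⟨rfl, le_refl _⟩
    | skip
  · right
    refine ⟨rfl, ?_⟩
    rw [List.length_append]; omega
  · right
    exact ⟨rfl, (lact_inv _ _).1⟩
  · right
    refine ⟨rfl, ?_⟩
    rw [List.length_append]; omega

theorem lI_eq {x y : H} (h1 : ∃ h, x = h * y) (h2 : ∃ h, y = h * x) : lI x = lI y := by
  obtain ⟨h, hx⟩ := h1
  obtain ⟨g, hy⟩ := h2
  ext z
  constructor
  · rintro ⟨k, rfl⟩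
    exact ⟨k * h, by rw [mul_assoc, ← hx]⟩
  · rintro ⟨k, rfl⟩
    exact ⟨k * g, by rw [mul_assoc, ← hy]⟩

theorem lex_inj {a b c d : ℕ} (h : (toLex (a, b) : ℕ ×ₗ ℕ) = toLex (c, d)) : a = c ∧ b = d :=
  Prod.mk.inj (toLex.injective h)

theorem l_conn (k k' : ℕ) (j : ℤ) (q : ℕ) :
    ∃ h : H, ((m (k', j, q) : S) : H) = h * ((m (k, j, q) : S) : H) := by
  refine ⟨((l (List.replicate k' false ++ List.replicate k true) : S) : H), ?_⟩
  rw [← WithOne.coe_mul]
  congr 1
  show m (k', j, q) = m (lact _ _)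
  rw [lact_append, lact_rep', lact_rep, zero_add]

theorem rk_eq (h y : H) (he : rk (h * y) = rk y) : lI (h * y) = lI y := by
  obtain rfl | ⟨h, rfl⟩ := H_cases h
  · rw [one_mul]
  obtain rfl | ⟨y, rfl⟩ := H_cases y
  · rw [mul_one, rk_one, rk_coe] at he
    cases h <;> exact absurd (lex_inj he).1 (by decide)
  rw [← WithOne.coe_mul] at he ⊢
  rw [rk_coe, rk_coe, mul_def] at he
  rw [mul_def]
  cases h <;> cases y <;> simp only [mulS, rkS] at he ⊢
  all_goals first
    | exact absurd (lex_inj he).1 (by decide)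
    | skip
  · rename_i u v
    have := (lex_inj he).2
    rw [List.length_append] at this
    have : u = [] := List.eq_nil_of_length_eq_zero (by omega)
    rw [this, List.nil_append]
  · rename_i u t
    obtain ⟨k, j, q⟩ := t
    have h1 := (lex_inj he).2
    have h2 := (lact_inv u (k, j, q)).2
    obtain ⟨⟨k', j', q'⟩, ht⟩ : ∃ t, lact u (k, j, q) = t := ⟨_, rfl⟩
    rw [ht] at h1 h2 ⊢
    have h1' : q' = q := h1
    have h2' : j' + q' = j + q := h2
    have h3 : j' = j := by rw [h1'] at h2'; omega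
    subst h1'
    subst h3
    exact lI_eq (l_conn _ _ _ _) (l_conn _ _ _ _)
  · rename_i u v
    have := (lex_inj he).2
    rw [List.length_append] at this
    have : u = [] := List.eq_nil_of_length_eq_zero (by omega)
    rw [this, List.nil_append]

theorem accpl : ACCPL H := by
  intro x hx
  have hx' : ∀ i, ∃ h, x i = h * x (i + 1) := fun i => hx i ⟨1, (one_mul _).symm⟩
  obtain ⟨N, hN⟩ := eventually (fun i => rk (x i)) (fun i => by
    obtain ⟨h, hh⟩ := hx' i
    show rk (x (i + 1)) ≤ rk (x i)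
    rw [hh]
    exact rk_le h _)
  refine ⟨N, fun n hn => ?_⟩
  induction n, hn using Nat.le_induction with
  | base => rfl
  | succ n hn ih =>
    rw [← ih]
    obtain ⟨h, hh⟩ := hx' n
    have h1 : rk (x n) = rk (x (n + 1)) := (hN n hn).trans (hN (n + 1) (by omega)).symm
    rw [hh] at h1 ⊢
    exact (rk_eq h _ h1).symm

/-- rank for right ideals -/
def rkS' : S → ℕ ×ₗ ℕ
  | ze => toLex (3, 0)
  | m t => toLex (2, t.1)
  | l u => toLex (1, u.length)
  | r u => toLex (1, u.length)

def rk' (x : H) : ℕ ×ₗ ℕ := WithOne.recOneCoe (toLex (0, 0)) rkS' x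

theorem rk'_one : rk' 1 = toLex (0, 0) := rfl
theorem rk'_coe (s : S) : rk' (s : H) = rkS' s := rfl

theorem rk'_le (h y : H) : rk' y ≤ rk' (y * h) := by
  obtain rfl | ⟨y, rfl⟩ := H_cases y
  · rw [rk'_one]
    obtain rfl | ⟨h, rfl⟩ := H_cases h
    · exact le_refl _
    · rw [one_mul, rk'_coe]
      cases h <;> exact lex_le (Or.inl (by decide))
  obtain rfl | ⟨h, rfl⟩ := H_cases h
  · rw [mul_one]
  rw [← WithOne.coe_mul, rk'_coe, rk'_coe, mul_def]
  cases h <;> cases y <;> simp only [mulS, rkS'] <;> apply lex_le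
  all_goals first
    | exact Or.inl (by decide)
    | exact Or.inr ⟨rfl, le_refl _⟩
    | skip
  · right
    refine ⟨rfl, ?_⟩
    rw [List.length_append]; omega
  · right
    refine ⟨rfl, ?_⟩
    rw [List.length_append]; omega
  · right
    exact ⟨rfl, (ract_inv _ _).1⟩

theorem rI_eq {x y : H} (h1 : ∃ h, x = y * h) (h2 : ∃ h, y = x * h) : rI x = rI y := by
  obtain ⟨h, hx⟩ := h1
  obtain ⟨g, hy⟩ := h2
  ext z
  constructor
  · rintro ⟨k, rfl⟩
    exact ⟨h * k, by rw [← mul_assoc, ← hx]⟩
  · rintro ⟨k, rfl⟩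
    exact ⟨g * k, by rw [← mul_assoc, ← hy]⟩

theorem r_conn (k : ℕ) (j : ℤ) (q q' : ℕ) :
    ∃ h : H, ((m (k, j, q') : S) : H) = ((m (k, j, q) : S) : H) * h := by
  refine ⟨((r (List.replicate q true ++ List.replicate q' false) : S) : H), ?_⟩
  rw [← WithOne.coe_mul]
  congr 1
  show m (k, j, q') = m (ract _ _)
  rw [ract_append, ract_rep', ract_rep, zero_add]

theorem rk'_eq (h y : H) (he : rk' (y * h) = rk' y) : rI (y * h) = rI y := by
  obtain rfl | ⟨h, rfl⟩ := H_cases h
  · rw [mul_one]
  obtain rfl | ⟨y, rfl⟩ := H_cases y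
  · rw [one_mul, rk'_one, rk'_coe] at he
    cases h <;> exact absurd (lex_inj he).1 (by decide)
  rw [← WithOne.coe_mul] at he ⊢
  rw [rk'_coe, rk'_coe, mul_def] at he
  rw [mul_def]
  cases h <;> cases y <;> simp only [mulS, rkS'] at he ⊢
  all_goals first
    | exact absurd (lex_inj he).1 (by decide)
    | skip
  · rename_i u v
    have := (lex_inj he).2
    rw [List.length_append] at this
    have : u = [] := List.eq_nil_of_length_eq_zero (by omega)
    rw [this, List.append_nil]
  · rename_i u v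
    have := (lex_inj he).2
    rw [List.length_append] at this
    have : u = [] := List.eq_nil_of_length_eq_zero (by omega)
    rw [this, List.append_nil]
  · rename_i u t
    obtain ⟨k, j, q⟩ := t
    have h1 := (lex_inj he).2
    have h2 := (ract_inv u (k, j, q)).2
    obtain ⟨⟨k', j', q'⟩, ht⟩ : ∃ t, ract (k, j, q) u = t := ⟨_, rfl⟩
    rw [ht] at h1 h2 ⊢
    have h1' : k' = k := h1
    have h2' : j' + k' = j + k := h2
    have h3 : j' = j := by rw [h1'] at h2'; omega
    subst h1'
    subst h3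
    exact rI_eq (r_conn _ _ _ _) (r_conn _ _ _ _)

theorem accpr : ACCPR H := by
  intro x hx
  have hx' : ∀ i, ∃ h, x i = x (i + 1) * h := fun i => hx i ⟨1, (mul_one _).symm⟩
  obtain ⟨N, hN⟩ := eventually (fun i => rk' (x i)) (fun i => by
    obtain ⟨h, hh⟩ := hx' i
    show rk' (x (i + 1)) ≤ rk' (x i)
    rw [hh]
    exact rk'_le h _)
  refine ⟨N, fun n hn => ?_⟩
  induction n, hn using Nat.le_induction with
  | base => rfl
  | succ n hn ih =>
    rw [← ih]
    obtain ⟨h, hh⟩ := hx' n
    have h1 : rk' (x n) = rk' (x (n + 1)) := (hN n hn).trans (hN (n + 1) (by omega)).symm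
    rw [hh] at h1 ⊢
    exact (rk'_eq h _ h1).symm

/-- the chain -/
def xx (j : ℕ) : H := ((m (0, (j : ℤ), 0) : S) : H)

theorem xx_succ (j : ℕ) : xx j = ((l [true] : S) : H) * xx (j + 1) * ((r [true] : S) : H) := by
  unfold xx
  rw [← WithOne.coe_mul, ← WithOne.coe_mul]
  congr 1
  show m (0, (j : ℤ), 0) = m (ract (lact [true] (0, ((j + 1 : ℕ) : ℤ), 0)) [true])
  simp [lact, ract, la, ra]

/-- elements whose middle index is at most `j`, or zero -/
def low (j : ℤ) (x : H) : Prop := x = ((ze : S) : H) ∨ ∃ t : T, t.2.1 ≤ j ∧ x = ((m t : S) : H)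

theorem low_left (j : ℤ) (h x : H) (hx : low j x) : low j (h * x) := by
  obtain rfl | ⟨h, rfl⟩ := H_cases h
  · rw [one_mul]; exact hx
  rcases hx with rfl | ⟨t, ht, rfl⟩
  · left
    rw [← WithOne.coe_mul]
    cases h <;> rfl
  · cases h with
    | l u =>
      right
      refine ⟨lact u t, ?_, ?_⟩
      · have := lact_inv u t
        omega
      · rw [← WithOne.coe_mul]; rfl
    | ze => left; rw [← WithOne.coe_mul]; rfl
    | r u => left; rw [← WithOne.coe_mul]; rfl
    | m t => left; rw [← WithOne.coe_mul]; rfl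

theorem low_right (j : ℤ) (h x : H) (hx : low j x) : low j (x * h) := by
  obtain rfl | ⟨h, rfl⟩ := H_cases h
  · rw [mul_one]; exact hx
  rcases hx with rfl | ⟨t, ht, rfl⟩
  · left
    rw [← WithOne.coe_mul]
    cases h <;> rfl
  · cases h with
    | r u =>
      right
      refine ⟨ract t u, ?_, ?_⟩
      · have := ract_inv u t
        omega
      · rw [← WithOne.coe_mul]; rfl
    | ze => left; rw [← WithOne.coe_mul]; rfl
    | l u => left; rw [← WithOne.coe_mul]; rfl
    | m t => left; rw [← WithOne.coe_mul]; rfl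

theorem not_accp : ¬ ACCP H := by
  intro hA
  obtain ⟨N, hN⟩ := hA xx (fun i => by
    rintro _ ⟨h, k, rfl⟩
    refine ⟨h * ((l [true] : S) : H), ((r [true] : S) : H) * k, ?_⟩
    rw [xx_succ]
    simp only [mul_assoc])
  have h1 := hN (N + 1) (by omega)
  have h2 : xx (N + 1) ∈ tI (xx (N + 1)) := ⟨1, 1, by rw [one_mul, mul_one]⟩
  rw [h1] at h2
  obtain ⟨h, k, hk⟩ := h2
  have h3 : low N (h * xx N * k) :=
    low_right _ _ _ (low_left _ _ _ (Or.inr ⟨(0, (N : ℤ), 0), le_refl _, rfl⟩))
  rw [← hk] at h3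
  rcases h3 with h4 | ⟨t, ht, h4⟩
  · exact absurd (WithOne.coe_injective h4) (by simp)
  · have h5 : m (0, ((N + 1 : ℕ) : ℤ), 0) = m t := WithOne.coe_injective h4
    have h6 := S.m.inj h5
    rw [← h6] at ht
    simp at ht

/-- There is a monoid with ACCPL and ACCPR but without ACCP. -/
theorem result : ∃ (H : Type) (_ : Monoid H), ACCPL H ∧ ACCPR H ∧ ¬ ACCP H :=
  ⟨H, inferInstance, accpl, accpr, not_accp⟩

end Pool.Agent.Results.MP_c4d24c_al.NotACCP
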